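import Pool.Agent.P.MP_9c2e29_co.Kempe4

set_option autoImplicit false

namespace Pool.Agent.Results.MP_9c2e29_co.FourChromatic

/-- A toroidal graph of chromatic number 4 with two 5-colourings that are not Kempe equivalent. -/
theorem result :
    ∃ (V : Type) (_ : Fintype V) (G : SimpleGraph V),
      (∃ (p : V → AddCircle (1:ℝ) × AddCircle (1:ℝ))
         (γ : V → V → C(unitInterval, AddCircle (1:ℝ) × AddCircle (1:ℝ))),
         Function.Injective p ∧
         (∀ u v, G.Adj u v → γ u v 0 = p u ∧ γ u v 1 = p v ∧ Function.Injective (γ u v)) ∧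
         (∀ (u v w : V) (t : unitInterval), G.Adj u v → 0 < (t:ℝ) → (t:ℝ) < 1 →
            γ u v t ≠ p w) ∧
         (∀ (u v u' v' : V) (s t : unitInterval), G.Adj u v → G.Adj u' v' →
            ¬ ((u = u' ∧ v = v') ∨ (u = v' ∧ v = u')) →
            0 < (s:ℝ) → (s:ℝ) < 1 → 0 < (t:ℝ) → (t:ℝ) < 1 → γ u v s ≠ γ u' v' t)) ∧
      G.chromaticNumber = 4 ∧
      ∃ c₁ c₂ : G.Coloring (Fin 5),
        ¬ Relation.ReflTransGen
          (fun c c' : V → Fin 5 => ∃ (a b : Fin 5) (x : V), ∀ v : V,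
            ((SimpleGraph.fromRel (fun y z => G.Adj y z ∧ (c y = a ∨ c y = b) ∧
                (c z = a ∨ c z = b))).Reachable x v → c' v = Equiv.swap a b (c v)) ∧
            (¬ (SimpleGraph.fromRel (fun y z => G.Adj y z ∧ (c y = a ∨ c y = b) ∧
                (c z = a ∨ c z = b))).Reachable x v → c' v = c v))
          (⇑c₁) (⇑c₂) :=
  ⟨Fin 10, inferInstance, Pool.Agent.P.MP_9c2e29_co.Four.G,
    Pool.Agent.P.MP_9c2e29_co.Four.toroidal, Pool.Agent.P.MP_9c2e29_co.Four.chi_eq,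
    Pool.Agent.P.MP_9c2e29_co.Four.col₁, Pool.Agent.P.MP_9c2e29_co.Four.col₂,
    Pool.Agent.P.MP_9c2e29_co.Four.not_equiv⟩

end Pool.Agent.Results.MP_9c2e29_co.FourChromatic
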